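import Pool.Agent.U356.SY.Growth
import Pool.Agent.R849.IS.Pfr

set_option autoImplicit false
set_option exponentiation.threshold 5000

/-! Q1 for sets almost invariant under a finite group reduces to invariant subgroups of small rank. -/

namespace Pool.Agent.U356.SY

open H112 Finset Cardinal
open scoped Pointwise
open Pool.Agent.R92.Star (Concl)

universe u v

theorem concl_conv (C : ℝ) : ∃ C' : ℝ, ∀ (Γ : Type u) [AddCommGroup Γ] (K : ℝ) (A : Finset Γ),
    1 ≤ K → Concl C ((2 * K) ^ 669) A → Concl C' K A := by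
  obtain ⟨M, hM⟩ : ∃ M : ℝ, M = max C 1 := ⟨_, rfl⟩
  have hM1 : 1 ≤ M := by rw [hM]; exact le_max_right _ _
  have hCM : C ≤ M := by rw [hM]; exact le_max_left _ _
  have h2M : (1 : ℝ) ≤ 2 ^ (669 * M) := Real.one_le_rpow (by norm_num) (by linarith)
  refine ⟨670 * M * 2 ^ (669 * M), fun Γ _ K A hK h => ?_⟩
  obtain ⟨d, B, ψ, H, T, hd, hB, hH, hv, hT, hc⟩ := h
  have hK0 : 0 < K := by linarith
  have h2K : 1 ≤ 2 * K := by linarith
  have h2K0 : 0 < 2 * K := by linarith
  have hlog0 : 0 ≤ Real.log (2 * K) := Real.log_nonneg h2K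
  have hlog2 : Real.log 2 ≤ Real.log (2 * K) := Real.log_le_log (by norm_num) (by linarith)
  have hlogK' : Real.log (2 * (2 * K) ^ 669) = Real.log 2 + 669 * Real.log (2 * K) := by
    rw [Real.log_mul (by norm_num) (by positivity), Real.log_pow]
    norm_num
  have hbig : 670 * M ≤ 670 * M * 2 ^ (669 * M) := le_mul_of_one_le_right (by linarith) h2M
  refine ⟨d, B, ψ, H, T, ?_, hB, hH, hv, ?_, hc⟩
  · refine hd.trans ?_
    rw [hlogK']
    have h1 : 0 ≤ Real.log 2 + 669 * Real.log (2 * K) := by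
      have := Real.log_nonneg (show (1 : ℝ) ≤ 2 by norm_num)
      linarith
    calc C * (Real.log 2 + 669 * Real.log (2 * K)) ≤
          M * (Real.log 2 + 669 * Real.log (2 * K)) := mul_le_mul_of_nonneg_right hCM h1
      _ ≤ M * (670 * Real.log (2 * K)) :=
          mul_le_mul_of_nonneg_left (by linarith) (by linarith)
      _ = 670 * M * Real.log (2 * K) := by ring
      _ ≤ _ := mul_le_mul_of_nonneg_right hbig hlog0
  · refine hT.trans ?_
    have hK'1 : (1 : ℝ) ≤ (2 * K) ^ 669 := one_le_pow₀ h2K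
    have h1 : ((2 * K) ^ 669) ^ C ≤ ((2 * K) ^ 669) ^ M :=
      Real.rpow_le_rpow_of_exponent_le hK'1 hCM
    have h2 : ((2 * K) ^ 669) ^ M = 2 ^ (669 * M) * K ^ (669 * M) := by
      rw [← Real.rpow_natCast (2 * K) 669, ← Real.rpow_mul h2K0.le,
        Real.mul_rpow (by norm_num) hK0.le]
      norm_num
    have h3 : K ^ (669 * M) ≤ K ^ (670 * M * 2 ^ (669 * M)) :=
      Real.rpow_le_rpow_of_exponent_le hK (by linarith)
    have hp : 0 ≤ ((2 * K) ^ 669) ^ M := Real.rpow_nonneg (by positivity) _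
    calc C * ((2 * K) ^ 669) ^ C ≤ M * ((2 * K) ^ 669) ^ M :=
          mul_le_mul hCM h1 (Real.rpow_nonneg (by positivity) _) (by linarith)
      _ = (M * 2 ^ (669 * M)) * K ^ (669 * M) := by rw [h2]; ring
      _ ≤ (670 * M * 2 ^ (669 * M)) * K ^ (670 * M * 2 ^ (669 * M)) := by
          apply mul_le_mul _ h3 (Real.rpow_nonneg hK0.le _) (by positivity)
          apply mul_le_mul_of_nonneg_right _ (by positivity)
          linarith

/-- **Reduction to invariant subgroups of small rank.** -/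
theorem reduce (C : ℝ) : ∃ C' : ℝ, ∀ (Γ : Type u) [AddCommGroup Γ] [DecidableEq Γ] (W : Type v)
    [Group W] [DistribMulAction W Γ] (K : ℝ) (A : Finset Γ), A.Nonempty →
    (∀ w : W, ((A + A.image fun a => w • a).card : ℝ) ≤ K * A.card) →
    (∀ (V : AddSubgroup Γ) (r : ℕ), (∀ (w : W), ∀ x ∈ V, w • x ∈ V) → Sat V → rk V = r →
      (r : ℝ) ≤ 1332 * Real.log (2 * K) →
      ∀ (K' : ℝ) (S : Finset V), S.Nonempty → ((S + S).card : ℝ) ≤ K' * S.card →
        Concl C K' S) → Concl C' K A := by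
  obtain ⟨C₁, hC₁⟩ := Pool.Agent.R849.IS.transfer.{u} C
  obtain ⟨C', hC'⟩ := concl_conv.{u} C₁
  refine ⟨C', fun Γ _ _ W _ _ K A hA hK hQ => ?_⟩
  have hself : A.image (fun a => (1 : W) • a) = A := by
    simp only [one_smul, Finset.image_id']
  have hAA := hK 1
  rw [hself] at hAA
  have hK1 : 1 ≤ K := one_le_K hA hA hAA
  have h2K1 : 1 ≤ 2 * K := by linarith
  obtain ⟨V, hinv, hs, hr, hrk, hc⟩ := group_all W hA hK
  obtain ⟨B, hBA, hB, hBV, hBc⟩ := rich_of_cov hA hc
  obtain ⟨g, hg⟩ := hB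
  refine hC' Γ K A hK1 (hC₁ Γ V (hQ V (rkN V) hinv hs (rkN_cast hr).symm hrk) _ A g hA ?_ ?_)
  · refine hAA.trans (mul_le_mul_of_nonneg_right ?_ (Nat.cast_nonneg _))
    calc K ≤ (2 * K) ^ 1 := by rw [pow_one]; linarith
      _ ≤ (2 * K) ^ 669 := pow_le_pow_right₀ h2K1 (by norm_num)
  · have h1 : B.card ≤ (Pool.Agent.R849.IS.sec V A g).card := by
      have h2 : (B.attach.image fun x => (⟨x.1 - g, hBV x.1 x.2 g hg⟩ : V)) ⊆
          Pool.Agent.R849.IS.sec V A g := by
        intro y hy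
        obtain ⟨x, _, rfl⟩ := Finset.mem_image.1 hy
        rw [Pool.Agent.R849.IS.mem_sec]
        show g + (x.1 - g) ∈ A
        rw [add_sub_cancel]
        exact hBA x.2
      have h3 := Finset.card_le_card h2
      rwa [Finset.card_image_of_injective, Finset.card_attach] at h3
      intro x y hxy
      exact Subtype.ext (sub_left_injective (congrArg Subtype.val hxy))
    calc (A.card : ℝ) ≤ (2 * K) ^ 1336 * B.card := hBc
      _ ≤ ((2 * K) ^ 669) ^ 2 * (Pool.Agent.R849.IS.sec V A g).card := by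
          apply mul_le_mul _ (by exact_mod_cast h1) (Nat.cast_nonneg _) (by positivity)
          rw [← pow_mul]
          exact pow_le_pow_right₀ h2K1 (by norm_num)

end Pool.Agent.U356.SY
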