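import Pool.Agent.U356.SY.Ent

set_option autoImplicit false

/-! The smallest minimiser of the entropy modulo `V` plus the rank of `V`. -/

namespace Pool.Agent.U356.SY

open H112 Finset Cardinal

universe u v

variable {Γ : Type u} [AddCommGroup Γ]

/-- saturated subgroups -/
def Sat (V : AddSubgroup Γ) : Prop := ∀ (x : Γ) (k : ℕ), 0 < k → k • x ∈ V → x ∈ V

/-- the saturation -/
def sat (V : AddSubgroup Γ) : AddSubgroup Γ where
  carrier := {x | ∃ k : ℕ, 0 < k ∧ k • x ∈ V}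
  zero_mem' := ⟨1, one_pos, by rw [one_smul]; exact V.zero_mem⟩
  add_mem' := by
    rintro x y ⟨k, hk, hx⟩ ⟨l, hl, hy⟩
    refine ⟨k * l, Nat.mul_pos hk hl, ?_⟩
    rw [smul_add]
    refine V.add_mem ?_ ?_
    · rw [mul_comm, mul_smul]; exact V.nsmul_mem hx l
    · rw [mul_smul]; exact V.nsmul_mem hy k
  neg_mem' := by
    rintro x ⟨k, hk, hx⟩
    exact ⟨k, hk, by rw [smul_neg]; exact V.neg_mem hx⟩

theorem mem_sat {V : AddSubgroup Γ} {x : Γ} : x ∈ sat V ↔ ∃ k : ℕ, 0 < k ∧ k • x ∈ V := Iff.rfl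

theorem le_sat (V : AddSubgroup Γ) : V ≤ sat V := fun x hx => ⟨1, one_pos, by
  rw [one_smul]; exact hx⟩

theorem sat_sat (V : AddSubgroup Γ) : Sat (sat V) := by
  rintro x k hk ⟨l, hl, hx⟩
  exact ⟨l * k, Nat.mul_pos hl hk, by rw [mul_smul]; exact hx⟩

theorem Sat.inf {V U : AddSubgroup Γ} (hV : Sat V) (hU : Sat U) : Sat (V ⊓ U) := by
  intro x k hk hx
  exact ⟨hV x k hk hx.1, hU x k hk hx.2⟩

theorem Sat.map {Γ' : Type v} [AddCommGroup Γ'] {V : AddSubgroup Γ} (hV : Sat V) (w : Γ ≃+ Γ') :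
    Sat (V.map w.toAddMonoidHom) := by
  rintro x k hk ⟨y, hy, hyx⟩
  refine ⟨w.symm x, hV _ k hk ?_, w.apply_symm_apply x⟩
  have : y = k • w.symm x := by
    apply w.injective
    rw [map_nsmul, w.apply_symm_apply]
    exact hyx
  rw [← this]; exact hy

/-- the rank -/
noncomputable def rk (V : AddSubgroup Γ) : Cardinal := Module.rank ℤ V

theorem rk_eq (V : AddSubgroup Γ) : rk V = Module.rank ℤ (AddSubgroup.toIntSubmodule V) := by
  unfold rk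
  exact LinearEquiv.rank_eq (AddEquiv.toIntLinearEquiv
    ⟨⟨fun x => ⟨x.1, x.2⟩, fun x => ⟨x.1, x.2⟩, fun _ => rfl, fun _ => rfl⟩, fun _ _ => rfl⟩)

theorem rk_mono {V U : AddSubgroup Γ} (h : V ≤ U) : rk V ≤ rk U := by
  rw [rk_eq, rk_eq]
  exact Submodule.rank_mono (AddSubgroup.toIntSubmodule.monotone h)

theorem rk_sup_inf (V U : AddSubgroup Γ) : rk (V ⊔ U) + rk (V ⊓ U) = rk V + rk U := by
  rw [rk_eq, rk_eq, rk_eq, rk_eq, map_sup, map_inf]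
  exact Submodule.rank_sup_add_rank_inf_eq _ _

theorem rk_map {Γ' : Type u} [AddCommGroup Γ'] (V : AddSubgroup Γ) (w : Γ ≃+ Γ') :
    rk (V.map w.toAddMonoidHom) = rk V := by
  unfold rk
  exact (LinearEquiv.rank_eq (AddEquiv.toIntLinearEquiv (w.addSubgroupMap V))).symm

/-- the quotient of a subgroup by a subgroup -/
theorem rk_quot {V U : AddSubgroup Γ} (h : V ≤ U) : ∃ c : Cardinal.{u}, c + rk V = rk U ∧
    (c = 0 ↔ ∀ x ∈ U, ∃ k : ℕ, 0 < k ∧ k • x ∈ V) := by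
  set V' := AddSubgroup.toIntSubmodule V with hV'
  set U' := AddSubgroup.toIntSubmodule U with hU'
  have hVU : V' ≤ U' := AddSubgroup.toIntSubmodule.monotone h
  refine ⟨Module.rank ℤ (U' ⧸ (V'.comap U'.subtype)), ?_, ?_⟩
  · rw [rk_eq, rk_eq, ← LinearEquiv.rank_eq (Submodule.comapSubtypeEquivOfLe hVU)]
    exact Submodule.rank_quotient_add_rank _
  · rw [rank_eq_zero_iff]
    constructor
    · intro h1 x hx
      obtain ⟨a, ha, hax⟩ := h1 (Submodule.Quotient.mk ⟨x, hx⟩)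
      rw [← Submodule.Quotient.mk_smul, Submodule.Quotient.mk_eq_zero] at hax
      have hax' : a • x ∈ V := hax
      refine ⟨a.natAbs, Int.natAbs_pos.2 ha, ?_⟩
      rcases Int.natAbs_eq a with h2 | h2
      · rw [h2] at hax'
        rw [← natCast_zsmul]; exact hax'
      · rw [h2, neg_smul] at hax'
        rw [← natCast_zsmul]
        exact (V.neg_mem_iff).1 hax'
    · intro h1 x
      obtain ⟨⟨y, hy⟩, rfl⟩ := Submodule.Quotient.mk_surjective _ x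
      obtain ⟨k, hk, hky⟩ := h1 y hy
      refine ⟨(k : ℤ), by exact_mod_cast hk.ne', ?_⟩
      rw [← Submodule.Quotient.mk_smul, Submodule.Quotient.mk_eq_zero]
      show ((k : ℤ) • y) ∈ V
      rw [natCast_zsmul]; exact hky

theorem rk_sat (V : AddSubgroup Γ) : rk (sat V) = rk V := by
  obtain ⟨c, hc, hc0⟩ := rk_quot (le_sat V)
  have : c = 0 := hc0.2 fun x hx => hx
  rw [← hc, this, zero_add]

theorem Sat.eq_of_rk {V U : AddSubgroup Γ} (hV : Sat V) (h : V ≤ U) (hfin : rk V < ℵ₀)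
    (hr : rk U ≤ rk V) : V = U := by
  obtain ⟨c, hc, hc0⟩ := rk_quot h
  have h1 : c + rk V = 0 + rk V := by
    rw [zero_add, hc]
    exact le_antisymm hr (rk_mono h)
  have h2 : c = 0 := Cardinal.eq_of_add_eq_add_right h1 hfin
  refine le_antisymm h fun x hx => ?_
  obtain ⟨k, hk, hkx⟩ := hc0.1 h2 x hx
  exact hV x k hk hkx

/-- the rank as a natural number -/
noncomputable def rkN (V : AddSubgroup Γ) : ℕ := Cardinal.toNat (rk V)

theorem rkN_cast {V : AddSubgroup Γ} (h : rk V < ℵ₀) : ((rkN V : ℕ) : Cardinal) = rk V :=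
  Cardinal.cast_toNat_of_lt_aleph0 h

theorem rk_sup_lt {V U : AddSubgroup Γ} (hV : rk V < ℵ₀) (hU : rk U < ℵ₀) : rk (V ⊔ U) < ℵ₀ := by
  have h := rk_sup_inf V U
  have h1 : rk (V ⊔ U) ≤ rk V + rk U := by
    rw [← h]; exact self_le_add_right _ _
  exact h1.trans_lt (Cardinal.add_lt_aleph0 hV hU)

theorem rkN_sup_inf {V U : AddSubgroup Γ} (hV : rk V < ℵ₀) (hU : rk U < ℵ₀) :
    rkN (V ⊔ U) + rkN (V ⊓ U) = rkN V + rkN U := by
  have h := rk_sup_inf V U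
  have h1 : rk (V ⊓ U) < ℵ₀ := (rk_mono inf_le_left).trans_lt hV
  have h2 := rk_sup_lt hV hU
  unfold rkN
  rw [← Cardinal.toNat_add h2 h1, h, Cardinal.toNat_add hV hU]

variable {ι : Type*}

/-- `w` permutes the sets `A i` up to translations. -/
def IsSym [DecidableEq Γ] (A : ι → Finset Γ) (w : Γ ≃+ Γ) : Prop :=
  ∃ (σ : Equiv.Perm ι) (b : ι → Γ), ∀ i, (A i).image (fun a => w a + b i) = A (σ i)

/-- the functional -/
noncomputable def Fn [Fintype ι] (A : ι → Finset Γ) (V : AddSubgroup Γ) : ℝ :=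
  ∑ i, Hm (A i) V + Fintype.card ι * rkN V

theorem Fn_map [DecidableEq Γ] [Fintype ι] {A : ι → Finset Γ} {w : Γ ≃+ Γ} (hw : IsSym A w)
    (V : AddSubgroup Γ) : Fn A (V.map w.toAddMonoidHom) = Fn A V := by
  obtain ⟨σ, b, h⟩ := hw
  unfold Fn rkN
  rw [rk_map]
  congr 1
  rw [← Equiv.sum_comp σ]
  refine Finset.sum_congr rfl fun i _ => ?_
  rw [← h i]
  exact Hm_image w (b i) V

theorem Fn_submod [Fintype ι] {A : ι → Finset Γ} (hA : ∀ i, (A i).Nonempty)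
    {V U : AddSubgroup Γ} (hV : rk V < ℵ₀) (hU : rk U < ℵ₀) :
    Fn A (V ⊓ U) + Fn A (V ⊔ U) ≤ Fn A V + Fn A U := by
  unfold Fn
  have h1 : ∑ i, Hm (A i) (V ⊓ U) + ∑ i, Hm (A i) (V ⊔ U) ≤
      ∑ i, Hm (A i) V + ∑ i, Hm (A i) U := by
    rw [← Finset.sum_add_distrib, ← Finset.sum_add_distrib]
    exact Finset.sum_le_sum fun i _ => Hm_submod (hA i) V U
  have h2 : ((rkN (V ⊔ U) : ℕ) : ℝ) + (rkN (V ⊓ U) : ℕ) = (rkN V : ℕ) + (rkN U : ℕ) := by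
    exact_mod_cast rkN_sup_inf hV hU
  have h3 : (Fintype.card ι : ℝ) * rkN (V ⊓ U) + Fintype.card ι * rkN (V ⊔ U) =
      Fintype.card ι * rkN V + Fintype.card ι * rkN U := by
    rw [← mul_add, ← mul_add, add_comm ((rkN (V ⊓ U) : ℕ) : ℝ), h2]
  linarith

theorem Fn_sat_le [Fintype ι] {A : ι → Finset Γ} (hA : ∀ i, (A i).Nonempty)
    (V : AddSubgroup Γ) : Fn A (sat V) ≤ Fn A V := by
  unfold Fn rkN
  rw [rk_sat]
  have : ∑ i, Hm (A i) (sat V) ≤ ∑ i, Hm (A i) V :=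
    Finset.sum_le_sum fun i _ => Hm_anti (hA i) (le_sat V)
  linarith

/-- existence of a minimiser -/
theorem exists_min [Fintype ι] [Nonempty ι] {A : ι → Finset Γ} (hA : ∀ i, (A i).Nonempty)
    (V₀ : AddSubgroup Γ) (hs : Sat V₀) (hr : rk V₀ < ℵ₀) :
    ∃ V : AddSubgroup Γ, Sat V ∧ rk V < ℵ₀ ∧ ∀ U : AddSubgroup Γ, Sat U → rk U < ℵ₀ →
      Fn A V ≤ Fn A U := by
  classical
  have hn : (1 : ℝ) ≤ Fintype.card ι := by exact_mod_cast Fintype.card_pos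
  -- rank bound
  obtain ⟨R, hR⟩ : ∃ R : ℕ, Fn A V₀ < R := exists_nat_gt _
  have hbig : ∀ U : AddSubgroup Γ, R ≤ rkN U → Fn A V₀ ≤ Fn A U := by
    intro U hU
    have h1 : (R : ℝ) ≤ rkN U := by exact_mod_cast hU
    have h2 : 0 ≤ ∑ i, Hm (A i) U := Finset.sum_nonneg fun i _ => Hm_nonneg (hA i) U
    have h3 : (rkN U : ℝ) ≤ Fintype.card ι * rkN U :=
      le_mul_of_one_le_left (Nat.cast_nonneg _) hn
    unfold Fn at hR ⊢
    linarith
  let D : Set (AddSubgroup Γ) := {U | Sat U ∧ rk U < ℵ₀ ∧ rkN U ≤ R}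
  have hfin : ((Fn A) '' D).Finite := by
    let B : Set ((ι → ℝ) × ℕ) := (Set.pi Set.univ fun i => Set.range (Hm (A i))) ×ˢ Set.Iic R
    have hB : B.Finite := (Set.Finite.pi fun i => Hm_finite (A i)).prod (Set.finite_Iic R)
    refine (hB.image fun x => ∑ i, x.1 i + Fintype.card ι * (x.2 : ℝ)).subset ?_
    rintro _ ⟨U, hU, rfl⟩
    exact ⟨(fun i => Hm (A i) U, rkN U), ⟨fun i _ => ⟨U, rfl⟩, hU.2.2⟩, rfl⟩
  by_cases hV0 : rkN V₀ ≤ R
  · obtain ⟨y, ⟨V, hV, rfl⟩, hmin⟩ := Set.exists_min_image _ id hfin ⟨_, V₀, ⟨hs, hr, hV0⟩, rfl⟩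
    refine ⟨V, hV.1, hV.2.1, fun U hU1 hU2 => ?_⟩
    by_cases hUR : rkN U ≤ R
    · exact hmin _ ⟨U, ⟨hU1, hU2, hUR⟩, rfl⟩
    · exact (hmin _ ⟨V₀, ⟨hs, hr, hV0⟩, rfl⟩).trans (hbig U (by omega))
  · exfalso
    have h1 : (R : ℝ) < rkN V₀ := by exact_mod_cast (not_le.1 hV0)
    have h2 : 0 ≤ ∑ i, Hm (A i) V₀ := Finset.sum_nonneg fun i _ => Hm_nonneg (hA i) V₀
    have h3 : (rkN V₀ : ℝ) ≤ Fintype.card ι * rkN V₀ :=
      le_mul_of_one_le_left (Nat.cast_nonneg _) hn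
    unfold Fn at hR
    linarith

/-- **The canonical subgroup.** -/
theorem canonical [DecidableEq Γ] [Fintype ι] [Nonempty ι] {A : ι → Finset Γ}
    (hA : ∀ i, (A i).Nonempty) (V₀ : AddSubgroup Γ) (hs : Sat V₀) (hr : rk V₀ < ℵ₀) :
    ∃ V : AddSubgroup Γ, Sat V ∧ rk V < ℵ₀ ∧ Fn A V ≤ Fn A V₀ ∧
      ∀ w : Γ ≃+ Γ, IsSym A w → V.map w.toAddMonoidHom = V := by
  classical
  obtain ⟨V₁, hV₁s, hV₁r, hV₁⟩ := exists_min hA V₀ hs hr
  -- the minimisers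
  let M : Set (AddSubgroup Γ) := {U | Sat U ∧ rk U < ℵ₀ ∧ Fn A U ≤ Fn A V₁}
  have hM : ∃ r, ∃ U ∈ M, rkN U = r := ⟨_, V₁, ⟨hV₁s, hV₁r, le_rfl⟩, rfl⟩
  obtain ⟨V, hVM, hVr⟩ := Nat.find_spec hM
  have hmin : ∀ U ∈ M, rkN V ≤ rkN U := by
    intro U hU
    rw [hVr]
    exact Nat.find_min' hM ⟨U, hU, rfl⟩
  refine ⟨V, hVM.1, hVM.2.1, hVM.2.2.trans (hV₁ V₀ hs hr), fun w hw => ?_⟩
  set U := V.map w.toAddMonoidHom with hU
  have hUs : Sat U := hVM.1.map w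
  have hUr : rk U < ℵ₀ := by rw [hU, rk_map]; exact hVM.2.1
  have hUF : Fn A U = Fn A V := Fn_map hw V
  -- the intersection is a minimiser
  have h1 := Fn_submod hA hVM.2.1 hUr
  have h2 := Fn_sat_le hA (V ⊔ U)
  have h3 : Fn A V₁ ≤ Fn A (sat (V ⊔ U)) := hV₁ _ (sat_sat _) (by
    rw [rk_sat]; exact rk_sup_lt hVM.2.1 hUr)
  have h4 : V ⊓ U ∈ M := by
    refine ⟨hVM.1.inf hUs, (rk_mono inf_le_left).trans_lt hVM.2.1, ?_⟩
    have := hVM.2.2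
    linarith
  have h5 := hmin _ h4
  have h6 : rk (V ⊓ U) < ℵ₀ := h4.2.1
  have h7 : rk V ≤ rk (V ⊓ U) := by
    rw [← rkN_cast hVM.2.1, ← rkN_cast h6]
    exact_mod_cast h5
  have h8 : V ⊓ U = V := h4.1.eq_of_rk inf_le_left h6 h7
  have h9 : V ⊓ U = U := by
    refine h4.1.eq_of_rk inf_le_right h6 ?_
    rw [hU, rk_map]; exact h7
  rw [← h9, h8]

end Pool.Agent.U356.SY
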