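import Pool.Agent.H112R2.Shannon

set_option autoImplicit false

/-! The entropy of a uniform element of a finite set modulo a subgroup, as a function of the subgroup:
it is submodular. -/

namespace Pool.Agent.U356.SY

open H112 Finset

universe u v

section general

variable {Ω α β : Type*}

/-- The entropy of `X` depends only on the partition defined by `X`. -/
theorem ent_congr_ker {w : Ω →₀ ℝ} (X : Ω → α) (Y : Ω → β)
    (h : ∀ o ∈ w.support, ∀ o' ∈ w.support, X o = X o' ↔ Y o = Y o') :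
    ent (w.mapDomain X) = ent (w.mapDomain Y) := by
  classical
  rw [shannon_ent_mapDomain, shannon_ent_mapDomain]
  refine Finset.sum_congr rfl fun o ho => ?_
  have : w.mapDomain X (X o) = w.mapDomain Y (Y o) := by
    rw [shannon_mapDomain_apply, shannon_mapDomain_apply]
    refine Finset.sum_congr rfl fun o' ho' => ?_
    by_cases hx : X o' = X o
    · rw [if_pos hx, if_pos ((h o' ho' o ho).1 hx)]
    · rw [if_neg hx, if_neg fun hy => hx ((h o' ho' o ho).2 hy)]
  rw [this]

end general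

variable {Γ : Type u} [AddCommGroup Γ]

/-- The entropy of a uniform element of `A` modulo `V`. -/
noncomputable def Hm (A : Finset Γ) (V : AddSubgroup Γ) : ℝ :=
  ent ((unif A).mapDomain (fun a => (QuotientAddGroup.mk a : Γ ⧸ V)))

theorem mk_eq_iff (V : AddSubgroup Γ) (a b : Γ) :
    (QuotientAddGroup.mk a : Γ ⧸ V) = QuotientAddGroup.mk b ↔ a - b ∈ V := by
  rw [QuotientAddGroup.eq, ← V.neg_mem_iff]
  have : -(-a + b) = a - b := by abel
  rw [this]

theorem Hm_congr {A B : Finset Γ} {V U : AddSubgroup Γ} (hAB : A = B)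
    (h : ∀ a ∈ A, ∀ b ∈ A, a - b ∈ V ↔ a - b ∈ U) : Hm A V = Hm B U := by
  subst hAB
  refine ent_congr_ker _ _ fun a ha b hb => ?_
  rw [mk_eq_iff, mk_eq_iff]
  exact h a (support_unif ha) b (support_unif hb)

theorem Hm_nonneg {A : Finset Γ} (hA : A.Nonempty) (V : AddSubgroup Γ) : 0 ≤ Hm A V :=
  ent_nonneg (isLaw_mapDomain (isLaw_unif hA) _)

theorem Hm_anti {A : Finset Γ} (hA : A.Nonempty) {V U : AddSubgroup Γ} (h : V ≤ U) :
    Hm A U ≤ Hm A V := by
  have h1 := ent_mapDomain_le (isLaw_mapDomain (isLaw_unif hA)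
    (fun a => (QuotientAddGroup.mk a : Γ ⧸ V)))
    (fun x => (QuotientAddGroup.map V U (AddMonoidHom.id Γ) (fun y hy => h hy) x : Γ ⧸ U))
  rw [← Finsupp.mapDomain_comp] at h1
  exact h1

/-- **Submodularity.** -/
theorem Hm_submod {A : Finset Γ} (hA : A.Nonempty) (V U : AddSubgroup Γ) :
    Hm A (V ⊓ U) + Hm A (V ⊔ U) ≤ Hm A V + Hm A U := by
  have h := ent_submod (isLaw_unif hA) (fun a => (QuotientAddGroup.mk a : Γ ⧸ V))
    (fun a => (QuotientAddGroup.mk a : Γ ⧸ U))
    (fun a => (QuotientAddGroup.mk a : Γ ⧸ (V ⊔ U)))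
  have e1 : ent ((unif A).mapDomain fun a => ((QuotientAddGroup.mk a : Γ ⧸ V),
      (QuotientAddGroup.mk a : Γ ⧸ U), (QuotientAddGroup.mk a : Γ ⧸ (V ⊔ U)))) =
      Hm A (V ⊓ U) := by
    refine ent_congr_ker _ _ fun a _ b _ => ?_
    rw [Prod.mk.injEq, Prod.mk.injEq, mk_eq_iff, mk_eq_iff, mk_eq_iff, mk_eq_iff,
      AddSubgroup.mem_inf]
    constructor
    · rintro ⟨h1, h2, _⟩
      exact ⟨h1, h2⟩
    · rintro ⟨h1, h2⟩
      exact ⟨h1, h2, (le_sup_left : V ≤ V ⊔ U) h1⟩
  have e2 : ent ((unif A).mapDomain fun a => ((QuotientAddGroup.mk a : Γ ⧸ V),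
      (QuotientAddGroup.mk a : Γ ⧸ (V ⊔ U)))) = Hm A V := by
    refine ent_congr_ker _ _ fun a _ b _ => ?_
    rw [Prod.mk.injEq, mk_eq_iff, mk_eq_iff]
    constructor
    · rintro ⟨h1, _⟩
      exact h1
    · intro h1
      exact ⟨h1, (le_sup_left : V ≤ V ⊔ U) h1⟩
  have e3 : ent ((unif A).mapDomain fun a => ((QuotientAddGroup.mk a : Γ ⧸ U),
      (QuotientAddGroup.mk a : Γ ⧸ (V ⊔ U)))) = Hm A U := by
    refine ent_congr_ker _ _ fun a _ b _ => ?_
    rw [Prod.mk.injEq, mk_eq_iff, mk_eq_iff]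
    constructor
    · rintro ⟨h1, _⟩
      exact h1
    · intro h1
      exact ⟨h1, (le_sup_right : U ≤ V ⊔ U) h1⟩
  rw [e1, e2, e3] at h
  exact h

/-- Only finitely many values. -/
theorem Hm_finite (A : Finset Γ) : (Set.range (Hm A)).Finite := by
  classical
  let r : AddSubgroup Γ → Finset (Γ × Γ) := fun V => (A ×ˢ A).filter (fun x => x.1 - x.2 ∈ V)
  let g : Finset (Γ × Γ) → ℝ := fun s => if h : ∃ V, r V = s then Hm A h.choose else 0
  have hg : ∀ V, Hm A V = g (r V) := by
    intro V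
    have hex : ∃ U, r U = r V := ⟨V, rfl⟩
    have h1 : g (r V) = Hm A hex.choose := by
      show (if h : ∃ U, r U = r V then Hm A h.choose else 0) = _
      rw [dif_pos hex]
    rw [h1]
    refine Hm_congr rfl fun a ha b hb => ?_
    have h2 := hex.choose_spec
    have h3 : (a, b) ∈ r V ↔ (a, b) ∈ r hex.choose := by rw [h2]
    simpa [r, ha, hb] using h3
  refine Set.Finite.subset (((A ×ˢ A).powerset : Set (Finset (Γ × Γ))).toFinite.image g) ?_
  rintro _ ⟨V, rfl⟩
  exact ⟨r V, by
    rw [Finset.mem_coe, Finset.mem_powerset]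
    exact Finset.filter_subset _ _, (hg V).symm⟩

/-- Affine images. -/
theorem Hm_image {Γ' : Type v} [AddCommGroup Γ'] [DecidableEq Γ'] {A : Finset Γ}
    (w : Γ ≃+ Γ') (b : Γ') (V : AddSubgroup Γ) :
    Hm (A.image fun a => w a + b) (V.map w.toAddMonoidHom) = Hm A V := by
  classical
  have hinj : Function.Injective fun a : Γ => w a + b := by
    intro x y hxy
    exact w.injective (add_right_cancel hxy)
  have h1 : (unif (A.image fun a => w a + b) : Γ' →₀ ℝ) =
      (unif A).mapDomain (fun a => w a + b) := by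
    ext y
    by_cases hy : ∃ x, w x + b = y
    · obtain ⟨x, rfl⟩ := hy
      rw [Finsupp.mapDomain_apply hinj (unif A) x]
      unfold unif
      rw [Finsupp.onFinset_apply, Finsupp.onFinset_apply]
      rw [Finset.card_image_of_injective _ hinj]
      by_cases hx : x ∈ A
      · rw [if_pos hx, if_pos (Finset.mem_image_of_mem _ hx)]
      · rw [if_neg hx, if_neg]
        intro h
        rw [Finset.mem_image] at h
        obtain ⟨z, hz, hzx⟩ := h
        exact hx (hinj hzx ▸ hz)
    · rw [Finsupp.mapDomain_of_notMem_range]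
      · unfold unif
        rw [Finsupp.onFinset_apply, if_neg]
        intro h
        rw [Finset.mem_image] at h
        obtain ⟨z, hz, hzx⟩ := h
        exact hy ⟨z, hzx⟩
      · rintro ⟨z, hz⟩
        exact hy ⟨z, hz⟩
  unfold Hm
  rw [h1, ← Finsupp.mapDomain_comp]
  refine ent_congr_ker _ _ fun a _ c _ => ?_
  simp only [Function.comp_apply]
  rw [mk_eq_iff, mk_eq_iff]
  have e : w a + b - (w c + b) = w (a - c) := by
    rw [map_sub]; abel
  rw [e]
  constructor
  · rintro ⟨z, hz, hzx⟩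
    have : z = a - c := w.injective hzx
    rw [← this]; exact hz
  · intro h
    exact ⟨a - c, h, rfl⟩

/-- If `A` is covered by `n` cosets of `V` then the entropy is at most `log n`. -/
theorem Hm_le_of_cover {A T : Finset Γ} (hA : A.Nonempty) {V : AddSubgroup Γ}
    (hT : ∀ a ∈ A, ∃ t ∈ T, a - t ∈ V) : Hm A V ≤ Real.log T.card := by
  classical
  have h1 := ent_le_log_card (isLaw_mapDomain (isLaw_unif hA)
    (fun a => (QuotientAddGroup.mk a : Γ ⧸ V)))
    (s := T.image fun a => (QuotientAddGroup.mk a : Γ ⧸ V)) (by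
      intro x hx
      obtain ⟨a, ha, rfl⟩ := Finset.mem_image.1 (Finsupp.mapDomain_support hx)
      obtain ⟨t, ht, hta⟩ := hT a (support_unif ha)
      exact Finset.mem_image.2 ⟨t, ht, ((mk_eq_iff V a t).2 hta).symm⟩)
  refine h1.trans ?_
  obtain ⟨a, ha⟩ := hA
  obtain ⟨t, ht, _⟩ := hT a ha
  apply Real.log_le_log
  · exact_mod_cast Finset.card_pos.2 (Finset.Nonempty.image ⟨t, ht⟩ _)
  · exact_mod_cast Finset.card_image_le

open scoped Classical in
/-- Some coset of `V` contains at least `exp (- Hm A V) |A|` elements of `A`. -/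
theorem exists_coset {A : Finset Γ} (hA : A.Nonempty) (V : AddSubgroup Γ) :
    ∃ g ∈ A, (A.card : ℝ) * Real.exp (-Hm A V) ≤ (A.filter fun a => a - g ∈ V).card := by
  set q := (unif A).mapDomain (fun a => (QuotientAddGroup.mk a : Γ ⧸ V)) with hq
  have hlaw : IsLaw q := isLaw_mapDomain (isLaw_unif hA) _
  obtain ⟨g, hg, hmax⟩ := A.exists_max_image (fun a => q (QuotientAddGroup.mk a : Γ ⧸ V)) hA
  have hqv : ∀ a ∈ A, q (QuotientAddGroup.mk a : Γ ⧸ V) =
      ((A.filter fun b => b - a ∈ V).card : ℝ) / A.card := by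
    intro a ha
    rw [hq, shannon_mapDomain_apply]
    have e1 : ∀ b ∈ (unif A).support, (if (QuotientAddGroup.mk b : Γ ⧸ V) =
        QuotientAddGroup.mk a then (unif A) b else 0) =
        if b - a ∈ V then (A.card : ℝ)⁻¹ else 0 := by
      intro b hb
      have hbA := support_unif hb
      have h2 : (unif A) b = (A.card : ℝ)⁻¹ := by
        unfold unif
        rw [Finsupp.onFinset_apply, if_pos hbA]
      by_cases hba : b - a ∈ V
      · rw [if_pos ((mk_eq_iff V b a).2 hba), if_pos hba, h2]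
      · rw [if_neg (fun h => hba ((mk_eq_iff V b a).1 h)), if_neg hba]
    refine (Finset.sum_congr rfl fun b hb => ?_).trans (?_ : (∑ b ∈ (unif A).support,
      if b - a ∈ V then (A.card : ℝ)⁻¹ else 0) = _)
    · rw [← e1 b hb]
      congr
    have hsupp : (unif A).support = A := by
      ext b
      constructor
      · intro hb; exact support_unif hb
      · intro hb
        rw [Finsupp.mem_support_iff]
        unfold unif
        rw [Finsupp.onFinset_apply, if_pos hb]
        have : (0 : ℝ) < A.card := by exact_mod_cast hA.card_pos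
        positivity
    rw [hsupp, ← Finset.sum_filter, Finset.sum_const, nsmul_eq_mul, div_eq_mul_inv]
  have hM : ∀ x, q x ≤ q (QuotientAddGroup.mk g : Γ ⧸ V) := by
    intro x
    by_cases hx : x ∈ q.support
    · obtain ⟨a, ha, rfl⟩ := Finset.mem_image.1 (Finsupp.mapDomain_support hx)
      exact hmax a (support_unif ha)
    · rw [Finsupp.notMem_support_iff.1 hx]
      exact hlaw.1 _
  have hApos : (0 : ℝ) < A.card := by exact_mod_cast hA.card_pos
  have hqpos : 0 < q (QuotientAddGroup.mk g : Γ ⧸ V) := by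
    rw [hqv g hg]
    apply div_pos _ hApos
    exact_mod_cast Finset.card_pos.2 ⟨g, Finset.mem_filter.2 ⟨hg, by
      rw [sub_self]; exact V.zero_mem⟩⟩
  have h1 : -Real.log (q (QuotientAddGroup.mk g : Γ ⧸ V)) ≤ Hm A V :=
    neg_log_le_ent hlaw hM
  refine ⟨g, hg, ?_⟩
  have h2 : Real.exp (-Hm A V) ≤ q (QuotientAddGroup.mk g : Γ ⧸ V) := by
    rw [← Real.exp_log hqpos]
    exact Real.exp_le_exp.2 (by linarith)
  rw [hqv g hg, le_div_iff₀ hApos] at h2
  linarith

end Pool.Agent.U356.SY
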