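import Pool.Agent.U356.SY.Orbit
import Pool.Agent.TH404.Tor.Final

set_option autoImplicit false
set_option exponentiation.threshold 50000

/-! Consequences: growth without small invariant subgroups, and Q1. -/

namespace Pool.Agent.U356.SY

open H112 Finset Cardinal
open scoped Pointwise

universe u v

variable {Γ : Type u} [AddCommGroup Γ]

theorem rpow_key {N K e : ℝ} (hK : 1 ≤ K) (hK2 : 2 ≤ K ^ 2) (hN : 1 ≤ N) (he : 1 ≤ e)
    (h : N ≤ (2 * K) ^ 1336 ∨ e ≤ (2 * K) ^ 1336) :
    (min N e) ^ (1 / 4008 : ℝ) ≤ K := by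
  have hm0 : 1 ≤ min N e := le_min hN he
  have h1 : min N e ≤ (2 * K) ^ 1336 := by
    rcases h with h | h
    · exact (min_le_left _ _).trans h
    · exact (min_le_right _ _).trans h
  have h2 : (2 * K) ^ 1336 ≤ (K ^ 3) ^ 1336 := by
    apply pow_le_pow_left₀ (by linarith)
    calc 2 * K ≤ K ^ 2 * K := mul_le_mul_of_nonneg_right hK2 (by linarith)
      _ = K ^ 3 := by ring
  have h3 : (K ^ 3) ^ 1336 = K ^ 4008 := by rw [← pow_mul]
  have h4 : min N e ≤ K ^ 4008 := h1.trans (h2.trans h3.le)
  have h5 : (min N e) ^ (1 / 4008 : ℝ) ≤ (K ^ 4008) ^ (1 / 4008 : ℝ) :=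
    Real.rpow_le_rpow (by linarith) h4 (by norm_num)
  refine h5.trans (le_of_eq ?_)
  have h6 := Real.pow_rpow_inv_natCast (show (0 : ℝ) ≤ K by linarith)
    (show (4008 : ℕ) ≠ 0 by norm_num)
  have h7 : (1 / 4008 : ℝ) = ((4008 : ℕ) : ℝ)⁻¹ := by norm_num
  rw [h7]
  exact h6

/-- **Growth without small invariant subgroups.** -/
theorem growth [DecidableEq Γ] [IsAddTorsionFree Γ] (W : Type v) [Group W]
    [DistribMulAction W Γ] (n : ℕ)
    (hW : ∀ V : AddSubgroup Γ, (∀ (w : W), ∀ x ∈ V, w • x ∈ V) → V ≠ ⊥ →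
      (n : Cardinal) ≤ rk V)
    {A : Finset Γ} (hA : A.Nonempty) :
    ∃ w : W, (A.card : ℝ) * (min (A.card : ℝ) (Real.exp n)) ^ (1 / 4008 : ℝ) ≤
      (A + A.image fun a => w • a).card := by
  classical
  have hpos : (0 : ℝ) < A.card := by exact_mod_cast hA.card_pos
  have hcard1 : (1 : ℝ) ≤ A.card := by exact_mod_cast hA.card_pos
  have hexp1 : (1 : ℝ) ≤ Real.exp n := Real.one_le_exp (Nat.cast_nonneg n)
  by_contra hcon
  push Not at hcon
  set M : ℝ := (min (A.card : ℝ) (Real.exp n)) ^ (1 / 4008 : ℝ) with hM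
  -- the best constant
  have hrange : (Set.range fun w : W => (A + A.image fun a => w • a).card).Finite := by
    refine (Set.finite_Iic ⌈(A.card : ℝ) * M⌉₊).subset ?_
    rintro _ ⟨w, rfl⟩
    have h1 := hcon w
    have h2 := Nat.le_ceil ((A.card : ℝ) * M)
    have h3 : (((A + A.image fun a => w • a).card : ℕ) : ℝ) ≤ (⌈(A.card : ℝ) * M⌉₊ : ℕ) := by
      linarith
    exact_mod_cast h3
  obtain ⟨_, ⟨w₀, rfl⟩, hw₀'⟩ := Set.exists_max_image _ id hrange ⟨_, 1, rfl⟩
  have hw₀ : ∀ w : W, (A + A.image fun a => w • a).card ≤ (A + A.image fun a => w₀ • a).card :=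
    fun w => hw₀' _ ⟨w, rfl⟩
  set K : ℝ := ((A + A.image fun a => w₀ • a).card : ℝ) / A.card with hKdef
  have hKM : K < M := by
    rw [hKdef, div_lt_iff₀ hpos]
    have := hcon w₀
    linarith
  have hK : ∀ w : W, ((A + A.image fun a => w • a).card : ℝ) ≤ K * A.card := by
    intro w
    rw [hKdef, div_mul_cancel₀ _ hpos.ne']
    exact_mod_cast hw₀ w
  rcases Nat.lt_or_ge A.card 2 with h2 | h2
  · -- one point
    have hc1 : A.card = 1 := by have := hA.card_pos; omega
    have h3 := hcon 1
    have hM1 : M = 1 := by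
      rw [hM, hc1]
      have : min ((1 : ℕ) : ℝ) (Real.exp n) = 1 := by
        rw [Nat.cast_one]; exact min_eq_left hexp1
      rw [this, Real.one_rpow]
    rw [hM1, hc1, mul_one, Nat.cast_one] at h3
    have h4 : 0 < (A + A.image fun a => (1 : W) • a).card :=
      Finset.card_pos.2 (hA.add (hA.image _))
    have h5 : (1 : ℝ) ≤ (A + A.image fun a => (1 : W) • a).card := by exact_mod_cast h4
    linarith
  · have hself : A.image (fun a => (1 : W) • a) = A := by
      simp only [one_smul, Finset.image_id']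
    have h3 := hK 1
    rw [hself] at h3
    have h4 : 2 * A.card - 1 ≤ (A + A).card := by
      have := cauchy_davenport_of_isAddTorsionFree hA hA
      omega
    have hK32 : 3 / 2 ≤ K := by
      have h5 : (2 : ℝ) * A.card - 1 ≤ (A + A).card := by
        have h6 : 2 * A.card ≤ (A + A).card + 1 := by omega
        have h7 : (2 : ℝ) * A.card ≤ (A + A).card + 1 := by exact_mod_cast h6
        linarith
      have h8 : (2 : ℝ) ≤ A.card := by exact_mod_cast h2
      by_contra hlt
      push Not at hlt
      have h9 : K * A.card < 3 / 2 * A.card := mul_lt_mul_of_pos_right hlt hpos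
      linarith
    obtain ⟨V, hinv, hs, hr, hrk, T, hT, hTc⟩ := group_all W hA hK
    have hkey : (A.card : ℝ) ≤ (2 * K) ^ 1336 ∨ Real.exp n ≤ (2 * K) ^ 1336 := by
      by_cases hV : V = ⊥
      · left
        refine le_trans ?_ hT
        have h5 : A ⊆ T := by
          intro a ha
          obtain ⟨t, ht, hat⟩ := hTc a ha
          rw [hV, AddSubgroup.mem_bot, sub_eq_zero] at hat
          rw [hat]; exact ht
        exact_mod_cast Finset.card_le_card h5
      · right
        have h5 := hW V hinv hV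
        rw [← rkN_cast hr] at h5
        have h6 : n ≤ rkN V := by exact_mod_cast h5
        have h7 : (n : ℝ) ≤ 1332 * Real.log (2 * K) := by
          have : (n : ℝ) ≤ rkN V := by exact_mod_cast h6
          linarith
        have h2K : 0 < 2 * K := by linarith
        have hlog : 0 ≤ Real.log (2 * K) := Real.log_nonneg (by linarith)
        calc Real.exp n ≤ Real.exp ((1336 : ℕ) * Real.log (2 * K)) :=
              Real.exp_le_exp.2 (h7.trans (by push_cast; linarith))
          _ = (2 * K) ^ 1336 := by rw [Real.exp_nat_mul, Real.exp_log h2K]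
    have h5 := rpow_key (by linarith) (by nlinarith) hcard1 hexp1 hkey
    rw [← hM] at h5
    linarith

/-- the rank over the integers and the dimension of the real span -/
theorem rank_real_span {E : Type u} [AddCommGroup E] [Module ℝ E] (V : AddSubgroup E) :
    Module.rank ℝ (Submodule.span ℝ (V : Set E)) ≤ rk V ∨ ℵ₀ ≤ rk V := by
  classical
  rcases lt_or_ge (rk V) ℵ₀ with hfin | hinf
  · left
    obtain ⟨s, hs, hsi⟩ := exists_set_linearIndependent ℤ V
    -- the subgroup generated by `s`
    let t : Set E := Subtype.val '' s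
    have ht : #t = rk V := by
      rw [Cardinal.mk_image_eq Subtype.val_injective, hs]; rfl
    have htV : AddSubgroup.closure t ≤ V := by
      rw [AddSubgroup.closure_le]
      rintro _ ⟨x, _, rfl⟩
      exact x.2
    have hrk : rk V ≤ rk (AddSubgroup.closure t) := by
      -- `s` is an independent family in the closure
      have h1 : LinearIndependent ℤ (fun x : s => (⟨(x : V).1,
          AddSubgroup.subset_closure ⟨x.1, x.2, rfl⟩⟩ : AddSubgroup.closure t)) := by
        have h2 : LinearIndependent ℤ (fun x : s => ((x : V) : E)) := by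
          have h3 := hsi.map' (AddSubgroup.toIntSubmodule V).subtype (by
            exact Submodule.ker_subtype _)
          exact h3
        have h4 : (fun x : s => ((x : V) : E)) =
            (AddSubgroup.closure t).subtype.toIntLinearMap ∘ (fun x : s => (⟨(x : V).1,
              AddSubgroup.subset_closure ⟨x.1, x.2, rfl⟩⟩ : AddSubgroup.closure t)) := rfl
        rw [h4] at h2
        exact h2.of_comp _
      have h5 := h1.cardinal_le_rank
      calc rk V = #s := by rw [hs]; rfl
        _ ≤ _ := h5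
    obtain ⟨c, hc, hc0⟩ := rk_quot htV
    have hc1 : c = 0 := by
      have h1 : c + rk (AddSubgroup.closure t) = 0 + rk (AddSubgroup.closure t) := by
        rw [hc, zero_add]
        exact le_antisymm hrk (rk_mono htV)
      exact Cardinal.eq_of_add_eq_add_right h1 ((rk_mono htV).trans_lt hfin)
    have hspan : Submodule.span ℝ (V : Set E) ≤ Submodule.span ℝ t := by
      rw [Submodule.span_le]
      intro x hx
      obtain ⟨k, hk, hkx⟩ := hc0.1 hc1 x hx
      have h1 : k • x ∈ Submodule.span ℝ t := by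
        have h2 : AddSubgroup.closure t ≤ (Submodule.span ℝ t).toAddSubgroup := by
          rw [AddSubgroup.closure_le]
          exact Submodule.subset_span
        exact h2 hkx
      have hk0 : (k : ℝ) ≠ 0 := by exact_mod_cast hk.ne'
      have h3 : x = (k : ℝ)⁻¹ • (k • x) := by
        rw [← Nat.cast_smul_eq_nsmul ℝ k x, smul_smul, inv_mul_cancel₀ hk0, one_smul]
      rw [h3]
      exact Submodule.smul_mem _ _ h1
    calc Module.rank ℝ (Submodule.span ℝ (V : Set E)) ≤ Module.rank ℝ (Submodule.span ℝ t) :=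
          Submodule.rank_mono hspan
      _ ≤ #t := _root_.rank_span_le t
      _ = rk V := ht
  · right; exact hinf

/-- growth in real vector spaces -/
theorem growth_real {E : Type u} [AddCommGroup E] [Module ℝ E] [DecidableEq E] (W : Type v)
    [Group W] [DistribMulAction W E] (hlin : ∀ (w : W) (c : ℝ) (x : E),
      w • (c • x) = c • (w • x)) (n : ℕ)
    (hW : ∀ U : Submodule ℝ E, (∀ (w : W), ∀ x ∈ U, w • x ∈ U) → U ≠ ⊥ →
      (n : Cardinal) ≤ Module.rank ℝ U)
    {A : Finset E} (hA : A.Nonempty) :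
    ∃ w : W, (A.card : ℝ) * (min (A.card : ℝ) (Real.exp n)) ^ (1 / 4008 : ℝ) ≤
      (A + A.image fun a => w • a).card := by
  have htf : IsAddTorsionFree E := ⟨fun k hk x y h => by
    have hk0 : (k : ℝ) ≠ 0 := by exact_mod_cast hk
    have h' : (k : ℝ) • x = (k : ℝ) • y := by
      rw [Nat.cast_smul_eq_nsmul, Nat.cast_smul_eq_nsmul]; exact h
    exact smul_right_injective E hk0 h'⟩
  refine growth W n (fun V hV hV0 => ?_) hA
  have h1 : (n : Cardinal) ≤ Module.rank ℝ (Submodule.span ℝ (V : Set E)) := by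
    refine hW _ (fun w x hx => ?_) ?_
    · induction hx using Submodule.span_induction with
      | mem x hx => exact Submodule.subset_span (hV w x hx)
      | zero => rw [smul_zero]; exact Submodule.zero_mem _
      | add x y _ _ hx hy => rw [smul_add]; exact Submodule.add_mem _ hx hy
      | smul c x _ hx => rw [hlin]; exact Submodule.smul_mem _ _ hx
    · intro h0
      apply hV0
      rw [eq_bot_iff]
      intro x hx
      have : x ∈ Submodule.span ℝ (V : Set E) := Submodule.subset_span hx
      rw [h0, Submodule.mem_bot] at this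
      exact this
  rcases rank_real_span V with h2 | h2
  · exact h1.trans h2
  · exact (Cardinal.natCast_lt_aleph0.le).trans h2

/-- Q1 for sets with symmetry in groups with bounded torsion -/
theorem q1 [d : DecidableEq Γ] (m : ℕ) (hm : 0 < m)
    (htor : ∀ x : Γ, (∃ k : ℕ, 0 < k ∧ k • x = 0) → m • x = 0)
    (W : Type v) [Group W] [DistribMulAction W Γ] {K : ℝ}
    (hW : ∀ (V : AddSubgroup Γ) (r : ℕ), (∀ (w : W), ∀ x ∈ V, w • x ∈ V) → rk V = r →
      (r : ℝ) ≤ 1332 * Real.log (2 * K) → r = 0)
    {A : Finset Γ} (hA : A.Nonempty)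
    (hK : ∀ w : W, ((A + A.image fun a => w • a).card : ℝ) ≤ K * A.card) :
    ∃ H : AddSubgroup Γ, Finite H ∧ Nat.card H ≤ A.card ∧
      Cov A H ((2 * K) ^ (60000000 * (Nat.log 2 m + 1))) := by
  have hd : d = (fun a b => Classical.propDecidable (a = b)) := Subsingleton.elim _ _
  subst hd
  classical
  have hself : A.image (fun a => (1 : W) • a) = A := by
    simp only [one_smul, Finset.image_id']
  have hAA := hK 1
  rw [hself] at hAA
  have hK1 : 1 ≤ K := one_le_K hA hA hAA
  have h2K1 : 1 ≤ 2 * K := by linarith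
  have h2K : 0 ≤ 2 * K := by linarith
  obtain ⟨V, hinv, hs, hr, hrk, hc⟩ := group_all W hA hK
  have hr0 : rkN V = 0 := hW V (rkN V) hinv (rkN_cast hr).symm hrk
  have hV0 : Module.rank ℤ V = 0 := by
    have := rkN_cast hr
    rw [hr0, Nat.cast_zero] at this
    exact this.symm
  rw [rank_eq_zero_iff] at hV0
  have hVm : ∀ x : V, m • x = 0 := by
    intro x
    obtain ⟨a, ha, hax⟩ := hV0 x
    apply Subtype.ext
    show m • (x : Γ) = 0
    refine htor x ⟨a.natAbs, Int.natAbs_pos.2 ha, ?_⟩
    have h1 : a • (x : Γ) = 0 := congrArg Subtype.val hax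
    rcases Int.natAbs_eq a with h2 | h2
    · rw [h2] at h1
      rw [← natCast_zsmul]; exact h1
    · rw [h2, neg_smul, neg_eq_zero] at h1
      rw [← natCast_zsmul]; exact h1
  obtain ⟨B, hBA, hB, hBV, hBc⟩ := rich_of_cov hA hc
  obtain ⟨g, hg⟩ := hB
  have hB : B.Nonempty := ⟨g, hg⟩
  -- the set in the group `V`
  let B' : Finset V := B.attach.image fun x => ⟨x.1 - g, hBV x.1 x.2 g hg⟩
  have hB'c : B'.card = B.card := by
    rw [Finset.card_image_of_injective, Finset.card_attach]
    intro x y hxy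
    have := congrArg Subtype.val hxy
    exact Subtype.ext (sub_left_injective this)
  have hB'ne : B'.Nonempty := by
    rw [← Finset.card_pos, hB'c]; exact hB.card_pos
  have hmem : ∀ x ∈ B', (x : Γ) + g ∈ B := by
    intro x hx
    obtain ⟨y, _, rfl⟩ := Finset.mem_image.1 hx
    show y.1 - g + g ∈ B
    rw [sub_add_cancel]; exact y.2
  have hsum : ((B' + B').card : ℝ) ≤ (2 * K) ^ 1337 * B'.card := by
    have h1 : (B' + B').card ≤ (A + A).card := by
      refine Finset.card_le_card_of_injOn (fun x : V => (x : Γ) + (g + g)) ?_ ?_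
      · intro x hx
        obtain ⟨y, hy, z, hz, rfl⟩ := Finset.mem_add.1 hx
        refine Finset.mem_add.2 ⟨y + g, hBA (hmem y hy), z + g, hBA (hmem z hz), ?_⟩
        show (y : Γ) + g + (z + g) = (y + z : Γ) + (g + g)
        abel
      · intro x _ y _ hxy
        exact Subtype.ext (add_right_cancel hxy)
    calc ((B' + B').card : ℝ) ≤ (A + A).card := by exact_mod_cast h1
      _ ≤ K * A.card := hAA
      _ ≤ K * ((2 * K) ^ 1336 * B.card) := mul_le_mul_of_nonneg_left hBc (by linarith)
      _ ≤ (2 * K) * ((2 * K) ^ 1336 * B.card) :=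
        mul_le_mul_of_nonneg_right (by linarith) (by positivity)
      _ = (2 * K) ^ 1337 * B'.card := by rw [hB'c, ← mul_assoc, ← pow_succ']
  obtain ⟨H', T', hH'f, hH'c, hT', hcov⟩ :=
    Pool.Agent.TH404.Tor.upper m hm hVm _ B' hB'ne hsum
  let H : AddSubgroup Γ := H'.map V.subtype
  have hHcard : Nat.card H = Nat.card H' :=
    (Nat.card_congr (H'.equivMapOfInjective V.subtype V.subtype_injective).toEquiv).symm
  have hHfin : Finite H := Finite.of_equiv _
    (H'.equivMapOfInjective V.subtype V.subtype_injective).toEquiv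
  refine ⟨H, hHfin, ?_, ?_⟩
  · rw [hHcard]
    exact hH'c.trans (by rw [hB'c]; exact Finset.card_le_card hBA)
  · set L : ℝ := (2 * (2 * K) ^ 1337) ^ (41005 * (Nat.log 2 m + 1)) with hL
    have hL0 : 0 ≤ L := by positivity
    have hcovB : Cov B H L := by
      refine ⟨T'.image fun t : V => (t : Γ) + g, ?_, fun b hb => ?_⟩
      · refine le_trans ?_ hT'
        exact_mod_cast Finset.card_image_le
      · obtain ⟨t, ht, hbt⟩ := hcov ⟨b - g, hBV b hb g hg⟩
          (Finset.mem_image.2 ⟨⟨b, hb⟩, Finset.mem_attach _ _, rfl⟩)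
        refine ⟨t + g, Finset.mem_image_of_mem _ ht, ⟨_, hbt, ?_⟩⟩
        show (b - g) - (t : Γ) = b - (t + g)
        abel
    obtain ⟨B₂, hB₂B, hB₂, hB₂V, hB₂c⟩ := rich_of_cov hB hcovB
    have hM : (A.card : ℝ) ≤ ((2 * K) ^ 1336 * L) * B₂.card := by
      calc (A.card : ℝ) ≤ (2 * K) ^ 1336 * B.card := hBc
        _ ≤ (2 * K) ^ 1336 * (L * B₂.card) := mul_le_mul_of_nonneg_left hB₂c (by positivity)
        _ = _ := (mul_assoc _ _ _).symm
    obtain ⟨T, hT, hTc⟩ := cov_of_rich hAA hB₂ (hB₂B.trans hBA) hB₂V hM (by linarith)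
    refine ⟨T, hT.trans ?_, hTc⟩
    have hL1 : L ≤ (2 * K) ^ (1338 * (41005 * (Nat.log 2 m + 1))) := by
      rw [hL, pow_mul (2 * K) 1338]
      refine pow_le_pow_left₀ (by positivity) ?_ _
      calc 2 * (2 * K) ^ 1337 ≤ (2 * K) * (2 * K) ^ 1337 :=
            mul_le_mul_of_nonneg_right (by linarith) (by positivity)
        _ = (2 * K) ^ 1338 := by rw [← pow_succ']
    calc K * ((2 * K) ^ 1336 * L) ≤
          (2 * K) * ((2 * K) ^ 1336 * (2 * K) ^ (1338 * (41005 * (Nat.log 2 m + 1)))) := by
          apply mul_le_mul (by linarith) _ (by positivity) h2K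
          exact mul_le_mul_of_nonneg_left hL1 (by positivity)
      _ = (2 * K) ^ (1 + 1336 + 1338 * (41005 * (Nat.log 2 m + 1))) := by
          rw [pow_add, pow_add, pow_one]; exact (mul_assoc _ _ _).symm
      _ ≤ _ := pow_le_pow_right₀ h2K1 (by omega)

end Pool.Agent.U356.SY
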