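import Pool.Agent.U356.SY.Canon
import Pool.Agent.H137R2.Weak.Final

set_option autoImplicit false

/-! The equivariant weak form of the polynomial Freiman-Ruzsa theorem. -/

namespace Pool.Agent.U356.SY

open H112 Finset Cardinal
open scoped Pointwise

universe u v

variable {Γ : Type u} [AddCommGroup Γ]

/-- `A` is covered by at most `L` cosets of `V`. -/
def Cov (A : Finset Γ) (V : AddSubgroup Γ) (L : ℝ) : Prop :=
  ∃ T : Finset Γ, (T.card : ℝ) ≤ L ∧ ∀ a ∈ A, ∃ t ∈ T, a - t ∈ V

theorem Cov.mk {A : Finset Γ} {V : AddSubgroup Γ} {L : ℝ} (T : Finset Γ) (h : (T.card : ℝ) ≤ L)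
    (h' : ∀ a ∈ A, ∃ t ∈ T, a - t ∈ V) : Cov A V L := ⟨T, h, h'⟩

/-- From a rich coset of `V` in `B` to a covering of `A` by cosets of `V`. -/
theorem cov_of_rich [DecidableEq Γ] {A B B' : Finset Γ} {V : AddSubgroup Γ} {K M : ℝ}
    (hK : ((A + B).card : ℝ) ≤ K * B.card) (hB' : B'.Nonempty) (hBB : B' ⊆ B)
    (hV : ∀ x ∈ B', ∀ y ∈ B', x - y ∈ V) (hM : (B.card : ℝ) ≤ M * B'.card) (hK0 : 0 ≤ K) :
    Cov A V (K * M) := by
  have h1 : ((A + B').card : ℝ) ≤ (K * M) * B'.card := by
    have h2 : ((A + B').card : ℝ) ≤ (A + B).card := by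
      exact_mod_cast Finset.card_le_card (Finset.add_subset_add_left hBB)
    calc ((A + B').card : ℝ) ≤ K * B.card := h2.trans hK
      _ ≤ K * (M * B'.card) := mul_le_mul_of_nonneg_left hM hK0
      _ = _ := by ring
  obtain ⟨F, _, hFc, hF⟩ := Finset.ruzsa_covering_add hB' h1
  refine ⟨F, hFc, fun a ha => ?_⟩
  obtain ⟨f, hf, y, hy, hfy⟩ := Finset.mem_add.1 (hF ha)
  obtain ⟨p, hp, q, hq, hpq⟩ := Finset.mem_sub.1 hy
  refine ⟨f, hf, ?_⟩
  have : a - f = p - q := by rw [← hfy, ← hpq]; abel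
  rw [this]
  exact hV p hp q hq

/-- pigeonhole -/
theorem rich_of_cov {A : Finset Γ} (hA : A.Nonempty) {V : AddSubgroup Γ} {L : ℝ}
    (h : Cov A V L) :
    ∃ B ⊆ A, B.Nonempty ∧ (∀ x ∈ B, ∀ y ∈ B, x - y ∈ V) ∧ (A.card : ℝ) ≤ L * B.card := by
  classical
  obtain ⟨T, hT, hc⟩ := h
  choose! f hfT hf using hc
  have hTne : T.Nonempty := by
    obtain ⟨a, ha⟩ := hA
    exact ⟨f a, hfT a ha⟩
  obtain ⟨t, ht, hmax⟩ := T.exists_max_image (fun t => (A.filter fun a => f a = t).card) hTne
  have h1 : A.card ≤ T.card * (A.filter fun a => f a = t).card := by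
    rw [Finset.card_eq_sum_card_fiberwise (f := f) (s := A) (t := T) (fun a ha => hfT a ha)]
    rw [← smul_eq_mul, ← Finset.sum_const]
    exact Finset.sum_le_sum fun x hx => hmax x hx
  have h2 : (A.filter fun a => f a = t).Nonempty := by
    rw [← Finset.card_pos]
    have := hA.card_pos
    by_contra h0
    have : (A.filter fun a => f a = t).card = 0 := by omega
    rw [this] at h1
    omega
  refine ⟨A.filter fun a => f a = t, Finset.filter_subset _ _, h2, ?_, ?_⟩
  · intro x hx y hy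
    rw [Finset.mem_filter] at hx hy
    have h3 := hf x hx.1
    have h4 := hf y hy.1
    rw [hx.2] at h3
    rw [hy.2] at h4
    have : x - y = (x - t) - (y - t) := by abel
    rw [this]
    exact V.sub_mem h3 h4
  · calc (A.card : ℝ) ≤ T.card * (A.filter fun a => f a = t).card := by exact_mod_cast h1
      _ ≤ L * (A.filter fun a => f a = t).card :=
        mul_le_mul_of_nonneg_right hT (Nat.cast_nonneg _)

/-- the start: a saturated subgroup of small rank -/
theorem start [d : DecidableEq Γ] {K : ℝ} {A : Finset Γ} (hA : A.Nonempty)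
    (hK : ((A + A).card : ℝ) ≤ K * A.card) :
    ∃ V : AddSubgroup Γ, Sat V ∧ rk V < ℵ₀ ∧ (rkN V : ℝ) ≤ 480 * Real.log K + 1 ∧
      Cov A V (K ^ 185) := by
  have hd : d = (fun a b => Classical.propDecidable (a = b)) := Subsingleton.elim _ _
  subst hd
  obtain ⟨P, S, T, hP, _, _, hS, _, hT, hcov⟩ := H137.Weak.weak_marton hA hK
  have h1 : rk (AddSubgroup.closure (S : Set Γ)) ≤ (S.card : Cardinal) := by
    rw [rk_eq]
    have h2 : AddSubgroup.toIntSubmodule (AddSubgroup.closure (S : Set Γ)) =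
        Submodule.span ℤ (S : Set Γ) := by
      rw [AddSubgroup.toIntSubmodule_closure]
    rw [h2]
    exact rank_span_finset_le S
  have h3 : rk (sat (AddSubgroup.closure (S : Set Γ))) ≤ (S.card : Cardinal) := by
    rw [rk_sat]; exact h1
  have h4 : rk (sat (AddSubgroup.closure (S : Set Γ))) < ℵ₀ :=
    h3.trans_lt (Cardinal.natCast_lt_aleph0)
  refine ⟨sat (AddSubgroup.closure (S : Set Γ)), sat_sat _, h4, ?_, Cov.mk T hT fun a ha => ?_⟩
  · have h5 : rkN (sat (AddSubgroup.closure (S : Set Γ))) ≤ S.card := by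
      have := h3
      rw [← rkN_cast h4] at this
      exact_mod_cast this
    have h6 : (rkN (sat (AddSubgroup.closure (S : Set Γ))) : ℝ) ≤ S.card := by exact_mod_cast h5
    linarith
  · obtain ⟨t, ht, o, ⟨m, hm, hmo⟩, ho⟩ := hcov a ha
    refine ⟨t, ht, ?_⟩
    have hPs : P ⊔ AddSubgroup.closure (S : Set Γ) ≤ sat (AddSubgroup.closure (S : Set Γ)) := by
      refine sup_le (fun x hx => ?_) (le_sat _)
      refine ⟨Nat.card P, Nat.card_pos, ?_⟩
      have h7 : Nat.card P • (⟨x, hx⟩ : P) = 0 := card_nsmul_eq_zero'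
      have h8 : Nat.card P • x = 0 := by
        have := congrArg P.subtype h7
        rwa [map_nsmul, map_zero] at this
      rw [h8]; exact AddSubgroup.zero_mem _
    have h9 : o ∈ sat (AddSubgroup.closure (S : Set Γ)) :=
      ⟨m, hm.pos, by rw [hmo]; exact AddSubgroup.zero_mem _⟩
    have : a - t = (a - t - o) + o := by abel
    rw [this]
    exact AddSubgroup.add_mem _ (hPs ho) h9

theorem one_le_K [DecidableEq Γ] {K : ℝ} {A B : Finset Γ} (hA : A.Nonempty) (hB : B.Nonempty)
    (hK : ((A + B).card : ℝ) ≤ K * A.card) : 1 ≤ K := by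
  have hpos : (0 : ℝ) < A.card := by exact_mod_cast hA.card_pos
  have h1 : (A.card : ℝ) ≤ (A + B).card := by
    exact_mod_cast Finset.card_le_card_add_right hB
  nlinarith

/-- **The equivariant weak form.** -/
theorem family [DecidableEq Γ] {ι : Type*} [Fintype ι] [Nonempty ι] {K : ℝ} {A : ι → Finset Γ}
    (hA : ∀ i, (A i).Nonempty) (hK : ∀ i j, ((A i + A j).card : ℝ) ≤ K * (A i).card) :
    ∃ V : AddSubgroup Γ, (∀ w : Γ ≃+ Γ, IsSym A w → V.map w.toAddMonoidHom = V) ∧
      Sat V ∧ rk V < ℵ₀ ∧ (rkN V : ℝ) ≤ 666 * Real.log (2 * K) ∧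
      ∀ i, Cov (A i) V ((2 * K) ^ 667) := by
  classical
  obtain ⟨i₀⟩ : Nonempty ι := inferInstance
  have hK1 : 1 ≤ K := one_le_K (hA i₀) (hA i₀) (hK i₀ i₀)
  have hK0 : 0 < K := by linarith
  have hlogK : 0 ≤ Real.log K := Real.log_nonneg hK1
  have hlog2 : Real.log (2 * K) = Real.log 2 + Real.log K :=
    Real.log_mul (by norm_num) hK0.ne'
  have hl2 : (0.6931471803 : ℝ) < Real.log 2 := Real.log_two_gt_d9
  obtain ⟨V₀, hs, hr, hrk, hc⟩ := start (hA i₀) (hK i₀ i₀)
  obtain ⟨B, hBA, hB, hBV, hBc⟩ := rich_of_cov (hA i₀) hc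
  have hcomm : ∀ i j, ((A j + A i).card : ℝ) ≤ K * (A i).card := by
    intro i j
    rw [add_comm (A j)]
    exact hK i j
  have hcov : ∀ j, Cov (A j) V₀ (K * K ^ 185) := fun j =>
    cov_of_rich (hcomm i₀ j) hB hBA hBV hBc hK0.le
  have hH : ∀ j, Hm (A j) V₀ ≤ 186 * Real.log K := by
    intro j
    obtain ⟨T, hT, hcT⟩ := hcov j
    refine (Hm_le_of_cover (hA j) hcT).trans ?_
    have hTne : T.Nonempty := by
      obtain ⟨a, ha⟩ := hA j
      obtain ⟨t, ht, _⟩ := hcT a ha
      exact ⟨t, ht⟩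
    have h1 : Real.log T.card ≤ Real.log (K * K ^ 185) :=
      Real.log_le_log (by exact_mod_cast hTne.card_pos) hT
    rw [← pow_succ', Real.log_pow] at h1
    norm_num at h1
    exact h1
  obtain ⟨V, hVs, hVr, hVF, hinv⟩ := canonical hA V₀ hs hr
  have hn : (0 : ℝ) < Fintype.card ι := by exact_mod_cast Fintype.card_pos
  have hF0 : Fn A V₀ ≤ Fintype.card ι * (666 * Real.log (2 * K)) := by
    unfold Fn
    have h1 : ∑ i, Hm (A i) V₀ ≤ Fintype.card ι * (186 * Real.log K) := by
      have := Finset.sum_le_sum (s := Finset.univ) fun i _ => hH i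
      rwa [Finset.sum_const, Finset.card_univ, nsmul_eq_mul] at this
    have h2 : (Fintype.card ι : ℝ) * rkN V₀ ≤ Fintype.card ι * (480 * Real.log K + 1) :=
      mul_le_mul_of_nonneg_left hrk hn.le
    have h3 : 186 * Real.log K + (480 * Real.log K + 1) ≤ 666 * Real.log (2 * K) := by
      rw [hlog2]; linarith
    calc _ ≤ Fintype.card ι * (186 * Real.log K) + Fintype.card ι * (480 * Real.log K + 1) :=
          add_le_add h1 h2
      _ = Fintype.card ι * (186 * Real.log K + (480 * Real.log K + 1)) := by ring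
      _ ≤ _ := mul_le_mul_of_nonneg_left h3 hn.le
  have hFV := hVF.trans hF0
  have hsumV : 0 ≤ ∑ i, Hm (A i) V := Finset.sum_nonneg fun i _ => Hm_nonneg (hA i) V
  have hrkV : (rkN V : ℝ) ≤ 666 * Real.log (2 * K) := by
    unfold Fn at hFV
    have h1 : (Fintype.card ι : ℝ) * rkN V ≤ Fintype.card ι * (666 * Real.log (2 * K)) := by
      linarith
    exact le_of_mul_le_mul_left h1 hn
  -- a good index
  obtain ⟨i, hi⟩ : ∃ i, Hm (A i) V ≤ 666 * Real.log (2 * K) := by
    by_contra hcon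
    push Not at hcon
    have h1 : ∑ _i : ι, (666 * Real.log (2 * K)) < ∑ i, Hm (A i) V :=
      Finset.sum_lt_sum_of_nonempty ⟨i₀, Finset.mem_univ _⟩ fun i _ => hcon i
    rw [Finset.sum_const, Finset.card_univ, nsmul_eq_mul] at h1
    have h2 : (0 : ℝ) ≤ Fintype.card ι * rkN V := by positivity
    unfold Fn at hFV
    linarith
  obtain ⟨g, hg, hgc⟩ := exists_coset (hA i) V
  have h2K : 0 < 2 * K := by linarith
  have hM : ((A i).card : ℝ) ≤ (2 * K) ^ 666 * ((A i).filter fun a => a - g ∈ V).card := by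
    have h1 : Real.exp (666 * Real.log (2 * K)) = (2 * K) ^ 666 := by
      have h0 := Real.exp_nat_mul (Real.log (2 * K)) 666
      rw [Real.exp_log h2K] at h0
      rw [← h0]
      norm_num
    have h2 : (A i).card * Real.exp (-(666 * Real.log (2 * K))) ≤
        (A i).card * Real.exp (-Hm (A i) V) :=
      mul_le_mul_of_nonneg_left (Real.exp_le_exp.2 (by linarith)) (Nat.cast_nonneg _)
    have h3 := h2.trans hgc
    rw [Real.exp_neg, h1, ← div_eq_mul_inv, div_le_iff₀ (by positivity)] at h3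
    linarith
  refine ⟨V, hinv, hVs, hVr, hrkV, fun j => ?_⟩
  obtain ⟨T, hT, hTc⟩ := cov_of_rich (V := V) (hcomm i j)
    (⟨g, Finset.mem_filter.2 ⟨hg, by rw [sub_self]; exact V.zero_mem⟩⟩ :
      ((A i).filter fun a => a - g ∈ V).Nonempty)
    (Finset.filter_subset _ _) (by
      intro x hx y hy
      rw [Finset.mem_filter] at hx hy
      have : x - y = (x - g) - (y - g) := by abel
      rw [this]
      exact V.sub_mem hx.2 hy.2) hM hK0.le
  refine ⟨T, hT.trans ?_, hTc⟩
  calc K * (2 * K) ^ 666 ≤ (2 * K) * (2 * K) ^ 666 :=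
        mul_le_mul_of_nonneg_right (by linarith) (by positivity)
    _ = (2 * K) ^ 667 := by rw [← pow_succ']

/-- **The form for a finite group of automorphisms.** -/
theorem group_form [DecidableEq Γ] (W : Type v) [Group W] [Finite W] [DistribMulAction W Γ]
    {K : ℝ} {A : Finset Γ} (hA : A.Nonempty)
    (hK : ∀ w : W, ((A + A.image fun a => w • a).card : ℝ) ≤ K * A.card) :
    ∃ V : AddSubgroup Γ, (∀ (w : W), ∀ x ∈ V, w • x ∈ V) ∧
      Sat V ∧ rk V < ℵ₀ ∧ (rkN V : ℝ) ≤ 666 * Real.log (2 * K) ∧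
      Cov A V ((2 * K) ^ 667) := by
  classical
  have := Fintype.ofFinite W
  let B : W → Finset Γ := fun w => A.image fun a => w • a
  have hBc : ∀ w, (B w).card = A.card := fun w =>
    Finset.card_image_of_injective _ (MulAction.injective w)
  have hBB : ∀ i j, ((B i + B j).card : ℝ) ≤ K * (B i).card := by
    intro i j
    have h1 : B i + B j = (A + A.image fun a => (i⁻¹ * j) • a).image fun a => i • a := by
      ext x
      constructor
      · intro hx
        obtain ⟨y, hy, z, hz, rfl⟩ := Finset.mem_add.1 hx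
        obtain ⟨a, ha, rfl⟩ := Finset.mem_image.1 hy
        obtain ⟨b, hb, rfl⟩ := Finset.mem_image.1 hz
        refine Finset.mem_image.2 ⟨a + (i⁻¹ * j) • b, Finset.mem_add.2 ⟨a, ha, _,
          Finset.mem_image_of_mem _ hb, rfl⟩, ?_⟩
        rw [smul_add, smul_smul, mul_inv_cancel_left]
      · intro hx
        obtain ⟨y, hy, rfl⟩ := Finset.mem_image.1 hx
        obtain ⟨a, ha, z, hz, rfl⟩ := Finset.mem_add.1 hy
        obtain ⟨b, hb, rfl⟩ := Finset.mem_image.1 hz
        rw [smul_add, smul_smul, mul_inv_cancel_left]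
        exact Finset.mem_add.2 ⟨_, Finset.mem_image_of_mem _ ha, _,
          Finset.mem_image_of_mem _ hb, rfl⟩
    rw [h1, Finset.card_image_of_injective _ (MulAction.injective i), hBc]
    exact hK _
  obtain ⟨V, hinv, hs, hr, hrk, hc⟩ := family (K := K) (A := B) (fun w => hA.image _) hBB
  refine ⟨V, fun w x hx => ?_, hs, hr, hrk, ?_⟩
  · have h1 := hinv (DistribMulAction.toAddEquiv Γ w) ⟨Equiv.mulLeft w, fun _ => 0, fun i => by
      simp only [B, Equiv.coe_mulLeft, Finset.image_image]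
      refine Finset.image_congr fun a _ => ?_
      simp only [Function.comp_apply, add_zero]
      show w • (i • a) = (w * i) • a
      rw [smul_smul]⟩
    rw [← h1]
    exact ⟨x, hx, rfl⟩
  · have h1 := hc 1
    have h2 : B 1 = A := by
      simp only [B, one_smul, Finset.image_id']
    rwa [h2] at h1

end Pool.Agent.U356.SY
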