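import Pool.Agent.U356.SY.Main

set_option autoImplicit false
set_option exponentiation.threshold 5000

/-! Arbitrary (infinite) groups: a large part of `A` has finite orbits, by P. M. Neumann's separation
lemma. -/

namespace Pool.Agent.U356.SY

open H112 Finset Cardinal
open scoped Pointwise Combinatorics.Additive

universe u v

/-- **P. M. Neumann's separation lemma.** -/
theorem separation {W : Type*} [Group W] {X : Type*} [MulAction W X] (D E : Finset X)
    (hD : ∀ x ∈ D, ¬ (MulAction.stabilizer W x).FiniteIndex) :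
    ∃ g : W, ∀ x ∈ D, g • x ∉ E := by
  classical
  by_contra hcon
  push Not at hcon
  -- the pairs `(x, y)` with `y` in the orbit of `x`
  let s : Finset (X × X) := (D ×ˢ E).filter fun p => ∃ g : W, g • p.1 = p.2
  let t : X × X → W := fun p => if h : ∃ g : W, g • p.1 = p.2 then h.choose else 1
  have ht : ∀ p ∈ s, t p • p.1 = p.2 := by
    intro p hp
    have h := (Finset.mem_filter.1 hp).2
    show (if h : ∃ g : W, g • p.1 = p.2 then h.choose else 1) • p.1 = p.2
    rw [dif_pos h]
    exact h.choose_spec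
  have hcov : ⋃ p ∈ s, (t p) • ((MulAction.stabilizer W p.1 : Subgroup W) : Set W) =
      Set.univ := by
    rw [Set.eq_univ_iff_forall]
    intro g
    obtain ⟨x, hx, hgx⟩ := hcon g
    have hs : (x, g • x) ∈ s := Finset.mem_filter.2 ⟨Finset.mem_product.2 ⟨hx, hgx⟩, g, rfl⟩
    refine Set.mem_iUnion₂.2 ⟨(x, g • x), hs, ?_⟩
    rw [mem_leftCoset_iff, SetLike.mem_coe, MulAction.mem_stabilizer_iff, mul_smul]
    have h1 : t (x, g • x) • x = g • x := ht _ hs
    show (t (x, g • x))⁻¹ • g • x = x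
    rw [inv_smul_eq_iff]
    exact h1.symm
  obtain ⟨p, hp, hfin⟩ := Subgroup.exists_finiteIndex_of_leftCoset_cover hcov
  exact hD p.1 (Finset.mem_product.1 (Finset.mem_filter.1 hp).1).1 hfin

variable {Γ : Type u} [AddCommGroup Γ]

/-- the subgroup of the elements with finite orbits -/
def fin (W : Type v) [Group W] [DistribMulAction W Γ] : AddSubgroup Γ where
  carrier := {x | (MulAction.stabilizer W x).FiniteIndex}
  zero_mem' := by
    have : MulAction.stabilizer W (0 : Γ) = ⊤ := by
      ext w; simp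
    show (MulAction.stabilizer W (0 : Γ)).FiniteIndex
    rw [this]; infer_instance
  add_mem' := by
    intro x y hx hy
    have hx' : (MulAction.stabilizer W x).FiniteIndex := hx
    have hy' : (MulAction.stabilizer W y).FiniteIndex := hy
    have h1 : (MulAction.stabilizer W x ⊓ MulAction.stabilizer W y).FiniteIndex := inferInstance
    refine Subgroup.finiteIndex_of_le (H := MulAction.stabilizer W x ⊓ MulAction.stabilizer W y) ?_
    intro w hw
    have h2 : w • x = x := hw.1
    have h3 : w • y = y := hw.2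
    show w • (x + y) = x + y
    rw [smul_add, h2, h3]
  neg_mem' := by
    intro x hx
    have hx' : (MulAction.stabilizer W x).FiniteIndex := hx
    refine Subgroup.finiteIndex_of_le (H := MulAction.stabilizer W x) ?_
    intro w hw
    have h2 : w • x = x := hw
    show w • (-x) = -x
    rw [smul_neg, h2]

theorem mem_fin {W : Type v} [Group W] [DistribMulAction W Γ] {x : Γ} :
    x ∈ fin W (Γ := Γ) ↔ (MulAction.stabilizer W x).FiniteIndex := Iff.rfl

/-- a large part of `A` has finite orbits, up to translation -/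
theorem finite_part [DecidableEq Γ] (W : Type v) [Group W] [DistribMulAction W Γ]
    {K : ℝ} {A : Finset Γ} (hA : A.Nonempty)
    (hK : ∀ w : W, ((A + A.image fun a => w • a).card : ℝ) ≤ K * A.card) :
    ∃ a₀ ∈ A, ∃ A₁ : Finset Γ, A₁.Nonempty ∧ (∀ x ∈ A₁, x + a₀ ∈ A) ∧
      (∀ x ∈ A₁, (MulAction.stabilizer W x).FiniteIndex) ∧ (A.card : ℝ) ≤ K * A₁.card := by
  classical
  let D : Finset Γ := (A - A).filter fun x => x ∉ fin W (Γ := Γ)
  obtain ⟨g, hg⟩ := separation (W := W) D (A - A) fun x hx => (Finset.mem_filter.1 hx).2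
  let B : Finset Γ := A.image fun a => g • a
  have hBc : B.card = A.card := Finset.card_image_of_injective _ (MulAction.injective g)
  obtain ⟨a₀, ha₀, hmax⟩ := A.exists_max_image
    (fun a => (A.filter fun b => b - a ∈ fin W (Γ := Γ)).card) hA
  set M := (A.filter fun b => b - a₀ ∈ fin W (Γ := Γ)).card with hM
  -- the energy
  have hE : E[A, B] ≤ A.card * (A.card * M) := by
    -- the quadruple is determined by `(a₁, c₁, c₂)`
    let Q : Finset (Γ × Γ × Γ) := A ×ˢ (A ×ˢ A).filter fun p => p.2 - p.1 ∈ fin W (Γ := Γ)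
    have hQ : Q.card ≤ A.card * (A.card * M) := by
      rw [Finset.card_product]
      refine Nat.mul_le_mul_left _ ?_
      have h1 : ((A ×ˢ A).filter fun p => p.2 - p.1 ∈ fin W (Γ := Γ)).card =
          ∑ a ∈ A, (A.filter fun b => b - a ∈ fin W (Γ := Γ)).card := by
        rw [Finset.card_filter, Finset.sum_product]
        refine Finset.sum_congr rfl fun a _ => ?_
        rw [Finset.card_filter]
      rw [h1]
      calc _ ≤ ∑ _a ∈ A, M := Finset.sum_le_sum fun a ha => hmax a ha
        _ = A.card * M := by rw [Finset.sum_const, smul_eq_mul]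
    refine le_trans ?_ hQ
    unfold Finset.addEnergy
    refine Finset.card_le_card_of_injOn
      (fun x => (x.1.1, g⁻¹ • x.2.1, g⁻¹ • x.2.2)) ?_ ?_
    · rintro ⟨⟨a₁, a₂⟩, b₁, b₂⟩ hx
      rw [Finset.mem_coe, Finset.mem_filter] at hx
      obtain ⟨hx1, hx2⟩ := hx
      simp only [Finset.mem_product] at hx1
      obtain ⟨⟨h1, h2⟩, h3, h4⟩ := hx1
      obtain ⟨c₁, hc₁, rfl⟩ := Finset.mem_image.1 h3
      obtain ⟨c₂, hc₂, rfl⟩ := Finset.mem_image.1 h4
      simp only [inv_smul_smul]
      rw [Finset.mem_coe]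
      refine Finset.mem_product.2 ⟨h1, Finset.mem_filter.2 ⟨Finset.mem_product.2 ⟨hc₁, hc₂⟩, ?_⟩⟩
      by_contra hnot
      have h5 : c₂ - c₁ ∈ D := Finset.mem_filter.2 ⟨Finset.sub_mem_sub hc₂ hc₁, hnot⟩
      apply hg _ h5
      have h6 : g • (c₂ - c₁) = a₁ - a₂ := by
        rw [smul_sub]
        simp only at hx2
        rw [sub_eq_sub_iff_add_eq_add, add_comm, ← hx2, add_comm]
      rw [h6]
      exact Finset.sub_mem_sub h1 h2
    · rintro ⟨⟨a₁, a₂⟩, b₁, b₂⟩ hx ⟨⟨a₁', a₂'⟩, b₁', b₂'⟩ hx' heq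
      rw [Finset.mem_coe, Finset.mem_filter] at hx hx'
      simp only [Prod.mk.injEq] at heq ⊢
      obtain ⟨h1, h2, h3⟩ := heq
      have h4 : b₁ = b₁' := MulAction.injective g⁻¹ h2
      have h5 : b₂ = b₂' := MulAction.injective g⁻¹ h3
      have h6 := hx.2
      have h7 := hx'.2
      simp only at h6 h7
      refine ⟨⟨h1, ?_⟩, h4, h5⟩
      have h8 : a₂ + b₂ = a₂' + b₂ := by
        rw [← h6, h5, ← h7, h1, h4]
      exact add_right_cancel h8
  have hCS := Finset.le_card_add_mul_addEnergy A B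
  have hpos : (0 : ℝ) < A.card := by exact_mod_cast hA.card_pos
  have hmain : (A.card : ℝ) ≤ K * M := by
    have h1 : ((A.card : ℝ) ^ 2) * (A.card : ℝ) ^ 2 ≤ ((A + B).card : ℝ) * (E[A, B] : ℕ) := by
      have : A.card ^ 2 * A.card ^ 2 ≤ (A + B).card * E[A, B] := by
        rw [hBc] at hCS; exact hCS
      exact_mod_cast this
    have h2 : ((E[A, B] : ℕ) : ℝ) ≤ A.card * (A.card * M) := by exact_mod_cast hE
    have h3 : ((A + B).card : ℝ) ≤ K * A.card := hK g
    have hK0 : 0 ≤ K := by
      by_contra hneg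
      push Not at hneg
      have : K * A.card < 0 := mul_neg_of_neg_of_pos hneg hpos
      have h4 : (0 : ℝ) ≤ (A + B).card := Nat.cast_nonneg _
      linarith
    have h5 : ((A.card : ℝ) ^ 2) * (A.card : ℝ) ^ 2 ≤ (K * A.card) * (A.card * (A.card * M)) :=
      h1.trans (mul_le_mul h3 h2 (Nat.cast_nonneg _) (by positivity))
    have h6 : (A.card : ℝ) * (A.card : ℝ) ^ 3 ≤ (K * M) * (A.card : ℝ) ^ 3 := by
      calc (A.card : ℝ) * (A.card : ℝ) ^ 3 = ((A.card : ℝ) ^ 2) * (A.card : ℝ) ^ 2 := by ring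
        _ ≤ _ := h5
        _ = (K * M) * (A.card : ℝ) ^ 3 := by ring
    exact le_of_mul_le_mul_right h6 (by positivity)
  refine ⟨a₀, ha₀, (A.filter fun b => b - a₀ ∈ fin W (Γ := Γ)).image fun b => b - a₀, ?_, ?_, ?_, ?_⟩
  · refine Finset.Nonempty.image ⟨a₀, Finset.mem_filter.2 ⟨ha₀, ?_⟩⟩ _
    rw [sub_self]; exact AddSubgroup.zero_mem _
  · intro x hx
    obtain ⟨b, hb, rfl⟩ := Finset.mem_image.1 hx
    rw [sub_add_cancel]
    exact (Finset.mem_filter.1 hb).1
  · intro x hx
    obtain ⟨b, hb, rfl⟩ := Finset.mem_image.1 hx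
    exact (Finset.mem_filter.1 hb).2
  · rw [Finset.card_image_of_injective _ sub_left_injective]
    exact hmain

/-- **The form for an arbitrary group of automorphisms.** -/
theorem group_all [DecidableEq Γ] (W : Type v) [Group W] [DistribMulAction W Γ]
    {K : ℝ} {A : Finset Γ} (hA : A.Nonempty)
    (hK : ∀ w : W, ((A + A.image fun a => w • a).card : ℝ) ≤ K * A.card) :
    ∃ V : AddSubgroup Γ, (∀ (w : W), ∀ x ∈ V, w • x ∈ V) ∧
      Sat V ∧ rk V < ℵ₀ ∧ (rkN V : ℝ) ≤ 1332 * Real.log (2 * K) ∧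
      Cov A V ((2 * K) ^ 1336) := by
  classical
  have hself : A.image (fun a => (1 : W) • a) = A := by
    simp only [one_smul, Finset.image_id']
  have hAA := hK 1
  rw [hself] at hAA
  have hK1 : 1 ≤ K := one_le_K hA hA hAA
  have hK0 : 0 < K := by linarith
  obtain ⟨a₀, ha₀, A₁, hA₁, hA₁A, hfin, hA₁c⟩ := finite_part W hA hK
  -- the pointwise stabiliser
  let S : Subgroup W := ⨅ x : A₁, MulAction.stabilizer W (x : Γ)
  have hS : S.FiniteIndex := by
    have : ∀ x : A₁, (MulAction.stabilizer W (x : Γ)).FiniteIndex := fun x => hfin x.1 x.2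
    exact Subgroup.finiteIndex_iInf this
  have hSx : ∀ s ∈ S, ∀ x ∈ A₁, s • x = x := by
    intro s hs x hx
    exact (Subgroup.mem_iInf.1 hs) ⟨x, hx⟩
  have hfinq : Finite (W ⧸ S) := Subgroup.finite_quotient_of_finiteIndex
  have := Fintype.ofFinite (W ⧸ S)
  let B : W ⧸ S → Finset Γ := fun q => A₁.image fun a => q.out • a
  have hBmk : ∀ g : W, B (g : W ⧸ S) = A₁.image fun a => g • a := by
    intro g
    obtain ⟨h, hh⟩ := QuotientGroup.mk_out_eq_mul S g
    show A₁.image (fun a => (g : W ⧸ S).out • a) = _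
    refine Finset.image_congr fun a ha => ?_
    show (g : W ⧸ S).out • a = g • a
    rw [hh, mul_smul, hSx h h.2 a ha]
  have hBc : ∀ q, (B q).card = A₁.card := fun q =>
    Finset.card_image_of_injective _ (MulAction.injective _)
  -- translates
  have htr : ∀ w : W, ((A₁ + A₁.image fun a => w • a).card : ℝ) ≤ K ^ 2 * A₁.card := by
    intro w
    have h1 : (A₁ + A₁.image fun a => w • a).card ≤ (A + A.image fun a => w • a).card := by
      refine Finset.card_le_card_of_injOn (fun x => x + (a₀ + w • a₀)) ?_ ?_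
      · intro x hx
        obtain ⟨y, hy, z, hz, rfl⟩ := Finset.mem_add.1 hx
        obtain ⟨b, hb, rfl⟩ := Finset.mem_image.1 hz
        refine Finset.mem_add.2 ⟨y + a₀, hA₁A y hy, w • (b + a₀),
          Finset.mem_image_of_mem _ (hA₁A b hb), ?_⟩
        rw [smul_add]
        show y + a₀ + (w • b + w • a₀) = y + w • b + (a₀ + w • a₀)
        abel
      · intro x _ y _ hxy
        exact add_right_cancel hxy
    calc ((A₁ + A₁.image fun a => w • a).card : ℝ) ≤ (A + A.image fun a => w • a).card := by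
          exact_mod_cast h1
      _ ≤ K * A.card := hK w
      _ ≤ K * (K * A₁.card) := mul_le_mul_of_nonneg_left hA₁c hK0.le
      _ = K ^ 2 * A₁.card := by ring
  have hBB : ∀ i j, ((B i + B j).card : ℝ) ≤ K ^ 2 * (B i).card := by
    intro i j
    obtain ⟨g, rfl⟩ := QuotientGroup.mk_surjective i
    obtain ⟨h, rfl⟩ := QuotientGroup.mk_surjective j
    have h1 : B (g : W ⧸ S) + B (h : W ⧸ S) =
        (A₁ + A₁.image fun a => (g⁻¹ * h) • a).image fun a => g • a := by
      rw [hBmk, hBmk]
      ext x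
      constructor
      · intro hx
        obtain ⟨y, hy, z, hz, rfl⟩ := Finset.mem_add.1 hx
        obtain ⟨a, ha, rfl⟩ := Finset.mem_image.1 hy
        obtain ⟨b, hb, rfl⟩ := Finset.mem_image.1 hz
        refine Finset.mem_image.2 ⟨a + (g⁻¹ * h) • b, Finset.mem_add.2 ⟨a, ha, _,
          Finset.mem_image_of_mem _ hb, rfl⟩, ?_⟩
        rw [smul_add, smul_smul, mul_inv_cancel_left]
      · intro hx
        obtain ⟨y, hy, rfl⟩ := Finset.mem_image.1 hx
        obtain ⟨a, ha, z, hz, rfl⟩ := Finset.mem_add.1 hy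
        obtain ⟨b, hb, rfl⟩ := Finset.mem_image.1 hz
        rw [smul_add, smul_smul, mul_inv_cancel_left]
        exact Finset.mem_add.2 ⟨_, Finset.mem_image_of_mem _ ha, _,
          Finset.mem_image_of_mem _ hb, rfl⟩
    rw [h1, Finset.card_image_of_injective _ (MulAction.injective g), hBc]
    exact htr _
  obtain ⟨V, hinv, hs, hr, hrk, hc⟩ := family (K := K ^ 2) (A := B) (fun w => hA₁.image _) hBB
  have h2K : 0 < 2 * K := by linarith
  have hKK : 2 * K ^ 2 ≤ (2 * K) ^ 2 := by nlinarith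
  refine ⟨V, fun w x hx => ?_, hs, hr, ?_, ?_⟩
  · have h1 := hinv (DistribMulAction.toAddEquiv Γ w) ⟨MulAction.toPerm w, fun _ => 0, fun q => by
      obtain ⟨g, rfl⟩ := QuotientGroup.mk_surjective q
      rw [MulAction.toPerm_apply]
      show (B (g : W ⧸ S)).image (fun a => w • a + 0) = B ((w * g : W) : W ⧸ S)
      rw [hBmk, hBmk, Finset.image_image]
      refine Finset.image_congr fun a _ => ?_
      show w • (g • a) + 0 = (w * g) • a
      rw [add_zero, smul_smul]⟩
    rw [← h1]
    exact ⟨x, hx, rfl⟩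
  · refine hrk.trans ?_
    have h1 : Real.log (2 * K ^ 2) ≤ 2 * Real.log (2 * K) := by
      have h3 : Real.log ((2 * K) ^ 2) = 2 * Real.log (2 * K) := by
        rw [Real.log_pow]; norm_num
      rw [← h3]
      exact Real.log_le_log (by positivity) hKK
    linarith
  · have h1 : Cov A₁ V ((2 * K ^ 2) ^ 667) := by
      have h2 := hc ((1 : W) : W ⧸ S)
      rw [hBmk] at h2
      simpa only [one_smul, Finset.image_id'] using h2
    obtain ⟨A₂, hA₂, hA₂n, hA₂V, hA₂c⟩ := rich_of_cov hA₁ h1
    have h3 : ((A₂.image fun x => x + a₀).card : ℝ) = A₂.card := by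
      rw [Finset.card_image_of_injective _ (add_left_injective a₀)]
    obtain ⟨T, hT, hTc⟩ := cov_of_rich (V := V) (M := K * (2 * K ^ 2) ^ 667) hAA
      (hA₂n.image fun x => x + a₀) (by
        intro x hx
        obtain ⟨y, hy, rfl⟩ := Finset.mem_image.1 hx
        exact hA₁A y (hA₂ hy)) (by
        intro x hx y hy
        obtain ⟨x', hx', rfl⟩ := Finset.mem_image.1 hx
        obtain ⟨y', hy', rfl⟩ := Finset.mem_image.1 hy
        rw [add_sub_add_right_eq_sub]
        exact hA₂V x' hx' y' hy') (by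
        rw [h3]
        calc (A.card : ℝ) ≤ K * A₁.card := hA₁c
          _ ≤ K * ((2 * K ^ 2) ^ 667 * A₂.card) := mul_le_mul_of_nonneg_left hA₂c hK0.le
          _ = _ := by ring) hK0.le
    refine ⟨T, hT.trans ?_, hTc⟩
    calc K * (K * (2 * K ^ 2) ^ 667) = K ^ 2 * (2 * K ^ 2) ^ 667 := by ring
      _ ≤ (2 * K) ^ 2 * ((2 * K) ^ 2) ^ 667 := by
          apply mul_le_mul _ (pow_le_pow_left₀ (by positivity) hKK _) (by positivity)
            (by positivity)
          exact pow_le_pow_left₀ hK0.le (by linarith) 2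
      _ = (2 * K) ^ 1336 := by rw [← pow_mul, ← pow_add]

end Pool.Agent.U356.SY
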